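import Mathlib

/-!
Automatic structures, geodesic words and ShortLex normal forms over a finite set `A` of
elements of a group `G`. Words are lists of elements of `A`.
-/

namespace Pool.Agent.Lib.MP_3489e4_al

variable {G : Type} [Group G]

/-- The group element represented by a word over `A`. -/
def ev {A : Finset G} (w : List A) : G := (w.map (fun a : A => (a : G))).prod

/-- A word is geodesic if no word representing the same element is shorter. -/
def IsGeodesic {A : Finset G} (w : List A) : Prop :=
  ∀ v : List A, ev v = ev w → w.length ≤ v.length

/-- The two-tape word of a pair of words: the shorter word is padded at the end by `none`. -/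
def pad {α : Type} (u v : List α) : List (Option α × Option α) := List.zipWithAll Prod.mk u v

/-- The padded pairs `(u, v)` of words of `L` with `ev u * g = ev v`. -/
def multiplier {A : Finset G} (L : Language A) (g : G) : Language (Option A × Option A) :=
  {p | ∃ u ∈ L, ∃ v ∈ L, ev u * g = ev v ∧ p = pad u v}

/-- `L` is the language of an automatic structure on `G` over `A`. -/
def IsAutomaticStructure (A : Finset G) (L : Language A) : Prop :=
  L.IsRegular ∧ (∀ g : G, ∃ w ∈ L, ev w = g) ∧
    (multiplier L 1).IsRegular ∧ ∀ a : A, (multiplier L (a : G)).IsRegular

/-- The words that are ShortLex-least among all words representing the same element. -/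
def shortLexLang (A : Finset G) (r : LinearOrder A) : Language A :=
  {w | ∀ v : List A, ev v = ev w → v = w ∨ List.Shortlex r.lt w v}

end Pool.Agent.Lib.MP_3489e4_al
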