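import Pool.Agent.Lib.MP_3489e4_al.Defs

/-!
General facts: a finite-index invariant gives regularity, and the fellow traveller property
gives regular multiplier languages.
-/

namespace Pool.Agent.Lib.MP_3489e4_al

variable {G : Type} [Group G]

theorem regular_of_invariant {β S : Type} [Finite S] (K : Language β) (τ : List β → S)
    (h : ∀ x y, τ x = τ y → ∀ z, x ++ z ∈ K → y ++ z ∈ K) : K.IsRegular := by
  classical
  apply Language.IsRegular.of_finite_range_leftQuotient
  let F : S → Language β := fun s => {z | ∃ x, τ x = s ∧ x ++ z ∈ K}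
  apply (Set.finite_range F).subset
  rintro _ ⟨x, rfl⟩
  refine ⟨τ x, ?_⟩
  ext z
  constructor
  · rintro ⟨y, hy, hz⟩
    exact h y x hy z hz
  · intro hz
    exact ⟨x, rfl, hz⟩

@[simp] theorem ev_nil {A : Finset G} : ev ([] : List A) = 1 := rfl

@[simp] theorem ev_cons {A : Finset G} (a : A) (w : List A) : ev (a :: w) = a * ev w := by
  simp [ev]

@[simp] theorem ev_append {A : Finset G} (u w : List A) : ev (u ++ w) = ev u * ev w := by
  simp [ev]

/-- first tape -/
def lft {α : Type} (p : List (Option α × Option α)) : List α := p.filterMap Prod.fst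

/-- second tape -/
def rgt {α : Type} (p : List (Option α × Option α)) : List α := p.filterMap Prod.snd

@[simp] theorem lft_append {α : Type} (p q : List (Option α × Option α)) :
    lft (p ++ q) = lft p ++ lft q := by simp [lft]

@[simp] theorem rgt_append {α : Type} (p q : List (Option α × Option α)) :
    rgt (p ++ q) = rgt p ++ rgt q := by simp [rgt]

theorem lft_pad {α : Type} (u v : List α) : lft (pad u v) = u := by
  induction u generalizing v with
  | nil => simp [lft, pad, List.filterMap_map]
  | cons a u ih =>
    cases v with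
    | nil => simp [lft, pad, List.filterMap_map]
    | cons b v =>
      have := ih v
      simp only [lft, pad] at this ⊢
      simp [this]

theorem rgt_pad {α : Type} (u v : List α) : rgt (pad u v) = v := by
  induction u generalizing v with
  | nil => simp [rgt, pad, List.filterMap_map]
  | cons a u ih =>
    cases v with
    | nil => simp [rgt, pad, List.filterMap_map]
    | cons b v =>
      have := ih v
      simp only [rgt, pad] at this ⊢
      simp [this]

theorem take_pad {α : Type} (u v : List α) (n : ℕ) :
    (pad u v).take n = pad (u.take n) (v.take n) := by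
  induction n generalizing u v with
  | zero => simp [pad]
  | succ n ih =>
    cases u with
    | nil => simp [pad, List.map_take]
    | cons a u =>
      cases v with
      | nil => simp [pad, List.map_take]
      | cons b v =>
        have := ih u v
        simp only [pad] at this ⊢
        simp [this]

/-- well padded two-tape words -/
def Valid {α : Type} (p : List (Option α × Option α)) : Prop :=
  p.Pairwise (fun a b => (a.1 = none → b.1 = none) ∧ (a.2 = none → b.2 = none)) ∧
    ∀ a ∈ p, a ≠ (none, none)

theorem valid_pad {α : Type} (u v : List α) : Valid (pad u v) := by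
  induction u generalizing v with
  | nil =>
    refine ⟨?_, ?_⟩
    · simpa [pad, List.pairwise_map] using List.pairwise_of_forall (fun _ _ => trivial)
    · simp [pad]
  | cons a u ih =>
    cases v with
    | nil =>
      refine ⟨?_, ?_⟩
      · simpa [pad, List.pairwise_map] using List.pairwise_of_forall (fun _ _ => trivial)
      · simp [pad]
    | cons b v =>
      obtain ⟨h1, h2⟩ := ih v
      simp only [pad] at h1 h2
      refine ⟨?_, ?_⟩
      · simp [pad, h1]
      · intro c hc
        simp only [pad, List.zipWithAll_cons_cons, List.mem_cons] at hc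
        rcases hc with rfl | hc
        · simp
        · exact h2 c hc

theorem eq_pad_of_valid {α : Type} (p : List (Option α × Option α)) (h : Valid p) :
    p = pad (lft p) (rgt p) := by
  induction p with
  | nil => simp [lft, rgt, pad]
  | cons c p ih =>
    obtain ⟨h1, h2⟩ := h
    rw [List.pairwise_cons] at h1
    have hv : Valid p := ⟨h1.2, fun a ha => h2 a (List.mem_cons_of_mem _ ha)⟩
    have ih' := ih hv
    rcases c with ⟨_ | a, _ | b⟩
    · exact absurd rfl (h2 _ List.mem_cons_self)
    · have hl : lft p = [] := by
        simp only [lft, List.filterMap_eq_nil_iff]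
        intro c hc
        exact (h1.1 c hc).1 rfl
      have e1 : lft ((none, some b) :: p) = [] := by simpa [lft] using hl
      have e2 : rgt ((none, some b) :: p) = b :: rgt p := by simp [rgt]
      rw [e1, e2]
      rw [hl] at ih'
      simp only [pad, List.nil_zipWithAll, List.map_cons] at ih' ⊢
      rw [← ih']
    · have hl : rgt p = [] := by
        simp only [rgt, List.filterMap_eq_nil_iff]
        intro c hc
        exact (h1.1 c hc).2 rfl
      have e1 : rgt ((some a, none) :: p) = [] := by simpa [rgt] using hl
      have e2 : lft ((some a, none) :: p) = a :: lft p := by simp [lft]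
      rw [e1, e2]
      rw [hl] at ih'
      simp only [pad, List.zipWithAll_nil, List.map_cons] at ih' ⊢
      rw [← ih']
    · have e1 : rgt ((some a, some b) :: p) = b :: rgt p := by simp [rgt]
      have e2 : lft ((some a, some b) :: p) = a :: lft p := by simp [lft]
      rw [e1, e2]
      simp only [pad, List.zipWithAll_cons_cons] at ih' ⊢
      rw [← ih']

theorem mem_multiplier_iff {A : Finset G} (L : Language A) (g : G)
    (p : List (Option A × Option A)) :
    p ∈ multiplier L g ↔ Valid p ∧ lft p ∈ L ∧ rgt p ∈ L ∧ ev (lft p) * g = ev (rgt p) := by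
  constructor
  · rintro ⟨u, hu, v, hv, e, rfl⟩
    rw [lft_pad, rgt_pad]
    exact ⟨valid_pad u v, hu, hv, e⟩
  · rintro ⟨h1, h2, h3, h4⟩
    exact ⟨_, h2, _, h3, h4, eq_pad_of_valid p h1⟩

theorem multiplier_regular {A : Finset G} (L : Language A) (hL : L.IsRegular) (g : G)
    (D : Set G) (hD : D.Finite)
    (hft : ∀ u ∈ L, ∀ v ∈ L, ev u * g = ev v → ∀ n : ℕ,
      (ev (u.take n))⁻¹ * ev (v.take n) ∈ D) :
    (multiplier L g).IsRegular := by
  classical
  have hq := hL.finite_range_leftQuotient
  have : Finite (Set.range L.leftQuotient) := hq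
  have : Finite D := hD
  let δ : List (Option A × Option A) → G := fun p => (ev (lft p))⁻¹ * ev (rgt p)
  let τ : List (Option A × Option A) →
      Prop × Set (Option A × Option A) × Set.range L.leftQuotient × Set.range L.leftQuotient ×
        Option D := fun p =>
    (Valid p, {c | c ∈ p}, ⟨L.leftQuotient (lft p), _, rfl⟩, ⟨L.leftQuotient (rgt p), _, rfl⟩,
      if h : δ p ∈ D then some ⟨δ p, h⟩ else none)
  apply regular_of_invariant _ τ
  intro x y hxy z hz
  simp only [τ, Prod.mk.injEq, Subtype.mk.injEq] at hxy
  obtain ⟨h1, h2, h3, h4, h5⟩ := hxy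
  have hxD : δ x ∈ D := by
    obtain ⟨u, hu, v, hv, e, hp⟩ := hz
    have hx : x = pad (u.take x.length) (v.take x.length) := by
      rw [← take_pad, ← hp]; simp
    have := hft u hu v hv e x.length
    simp only [δ]
    rw [hx, lft_pad, rgt_pad]
    exact this
  have hδ : δ x = δ y := by
    rw [dif_pos hxD] at h5
    split_ifs at h5 with hy
    simpa using h5
  rw [mem_multiplier_iff] at hz ⊢
  obtain ⟨hv, hl, hr, he⟩ := hz
  have hmem : ∀ c, c ∈ x ↔ c ∈ y := fun c => by
    have := congrArg (fun s : Set (Option A × Option A) => c ∈ s) h2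
    simpa using this
  refine ⟨?_, ?_, ?_, ?_⟩
  · obtain ⟨hv1, hv2⟩ := hv
    rw [List.pairwise_append] at hv1
    have hvx : Valid x := ⟨hv1.1, fun a ha => hv2 a (List.mem_append_left _ ha)⟩
    have hvy : Valid y := h1 ▸ hvx
    refine ⟨List.pairwise_append.2 ⟨hvy.1, hv1.2.1, fun a ha b hb =>
      hv1.2.2 a ((hmem a).2 ha) b hb⟩, fun a ha => ?_⟩
    rcases List.mem_append.1 ha with ha | ha
    · exact hvy.2 a ha
    · exact hv2 a (List.mem_append_right _ ha)
  · rw [lft_append] at hl ⊢
    rw [← Language.mem_leftQuotient] at hl ⊢
    rwa [← h3]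
  · rw [rgt_append] at hr ⊢
    rw [← Language.mem_leftQuotient] at hr ⊢
    rwa [← h4]
  · simp only [lft_append, rgt_append, ev_append, δ] at he hδ ⊢
    have h6 : ev (lft z) * g = (ev (lft x))⁻¹ * ev (rgt x) * ev (rgt z) := by
      rw [mul_assoc, ← he]; group
    rw [mul_assoc, h6, hδ]; group

end Pool.Agent.Lib.MP_3489e4_al
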