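import Pool.Agent.Lib.MP_3489e4_al.Fellow

/-!
The group `Z^4` extended by the Klein four-group acting by the double transpositions of the
coordinates, its six generators, the length function and the geodesic normal form.
-/

set_option linter.unusedSimpArgs false

namespace Pool.Agent.Lib.MP_3489e4_al

/-- An element `(a, b, c, d; p, q)` of the semidirect product. -/
@[ext] structure Gr where
  a : ℤ
  b : ℤ
  c : ℤ
  d : ℤ
  p : Bool
  q : Bool
  deriving DecidableEq

namespace Gr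

def mul' (g h : Gr) : Gr :=
  match g.p, g.q with
  | false, false => ⟨g.a + h.a, g.b + h.b, g.c + h.c, g.d + h.d, h.p, h.q⟩
  | true, false => ⟨g.a + h.c, g.b + h.d, g.c + h.a, g.d + h.b, !h.p, h.q⟩
  | false, true => ⟨g.a + h.b, g.b + h.a, g.c + h.d, g.d + h.c, h.p, !h.q⟩
  | true, true => ⟨g.a + h.d, g.b + h.c, g.c + h.b, g.d + h.a, !h.p, !h.q⟩

def inv' (g : Gr) : Gr :=
  match g.p, g.q with
  | false, false => ⟨-g.a, -g.b, -g.c, -g.d, false, false⟩
  | true, false => ⟨-g.c, -g.d, -g.a, -g.b, true, false⟩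
  | false, true => ⟨-g.b, -g.a, -g.d, -g.c, false, true⟩
  | true, true => ⟨-g.d, -g.c, -g.b, -g.a, true, true⟩

instance : Mul Gr := ⟨mul'⟩
instance : Inv Gr := ⟨inv'⟩
instance : One Gr := ⟨⟨0, 0, 0, 0, false, false⟩⟩

theorem mul_def (g h : Gr) : g * h = mul' g h := rfl
theorem inv_def (g : Gr) : g⁻¹ = inv' g := rfl
theorem one_def : (1 : Gr) = ⟨0, 0, 0, 0, false, false⟩ := rfl

instance : Group Gr := Group.ofLeftAxioms
  (by
    rintro ⟨a, b, c, d, p, q⟩ ⟨a', b', c', d', p', q'⟩ ⟨a'', b'', c'', d'', p'', q''⟩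
    cases p <;> cases q <;> cases p' <;> cases q' <;>
      simp [mul_def, mul', add_assoc])
  (by
    rintro ⟨a, b, c, d, p, q⟩
    simp [mul_def, mul', one_def])
  (by
    rintro ⟨a, b, c, d, p, q⟩
    cases p <;> cases q <;> simp [mul_def, mul', one_def, inv_def, inv'])

def x : Gr := ⟨1, 0, 0, 0, false, false⟩
def X : Gr := ⟨-1, 0, 0, 0, false, false⟩
def y : Gr := ⟨0, 1, 0, 0, false, false⟩
def Y : Gr := ⟨0, -1, 0, 0, false, false⟩
def t : Gr := ⟨0, 0, 0, 0, true, false⟩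
def u : Gr := ⟨0, 0, 0, 0, true, true⟩

def gens : Finset Gr := {x, X, y, Y, t, u}

theorem mem_gens {l : Gr} : l ∈ gens ↔ l = x ∨ l = X ∨ l = y ∨ l = Y ∨ l = t ∨ l = u := by
  simp [gens]

theorem gens_inv : ∀ l ∈ gens, l⁻¹ ∈ gens := by
  intro l hl
  rcases mem_gens.1 hl with rfl | rfl | rfl | rfl | rfl | rfl <;> decide

/-- The word length. -/
def len (g : Gr) : ℤ :=
  |g.a| + |g.b| + |g.c| + |g.d| +
    (if g.p then 1 else if g.q then 2 else if g.c = 0 ∧ g.d = 0 then 0 else 2)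

/-- `good g l`: the letter `l` may follow a normal-form word representing `g`. -/
def good (g l : Gr) : Prop :=
  match g.p, g.q with
  | false, false => g.c = 0 ∧ g.d = 0 ∧
      ((l = x ∧ g.b = 0 ∧ 0 ≤ g.a) ∨ (l = X ∧ g.b = 0 ∧ g.a ≤ 0) ∨ (l = y ∧ 0 ≤ g.b) ∨
        (l = Y ∧ g.b ≤ 0) ∨ l = t ∨ l = u)
  | true, false =>
      (l = x ∧ g.d = 0 ∧ 0 ≤ g.c) ∨ (l = X ∧ g.d = 0 ∧ g.c ≤ 0) ∨ (l = y ∧ 0 ≤ g.d) ∨
        (l = Y ∧ g.d ≤ 0) ∨ (l = t ∧ ¬ (g.c = 0 ∧ g.d = 0)) ∨ l = u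
  | true, true =>
      (l = y ∧ g.d = 0 ∧ 0 ≤ g.c) ∨ (l = Y ∧ g.d = 0 ∧ g.c ≤ 0) ∨ (l = x ∧ 0 ≤ g.d) ∨
        (l = X ∧ g.d ≤ 0)
  | false, true => False

theorem len_one : len 1 = 0 := by simp [len, one_def]

theorem len_nonneg (g : Gr) : 0 ≤ len g := by
  unfold len
  have := abs_nonneg g.a; have := abs_nonneg g.b; have := abs_nonneg g.c; have := abs_nonneg g.d
  split_ifs <;> omega

theorem len_mul_le (g l : Gr) (hl : l ∈ gens) : len (g * l) ≤ len g + 1 := by
  obtain ⟨a, b, c, d, p, q⟩ := g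
  rcases mem_gens.1 hl with rfl | rfl | rfl | rfl | rfl | rfl <;> cases p <;> cases q <;>
    simp only [len, mul_def, mul', x, X, y, Y, t, u, abs_eq_max_neg, Bool.not_true,
      Bool.not_false, Bool.false_eq_true, if_true, if_false, add_zero] <;>
    (try split_ifs) <;> omega

theorem len_good (g l : Gr) (h : good g l) : len (g * l) = len g + 1 := by
  obtain ⟨a, b, c, d, p, q⟩ := g
  cases p <;> cases q <;> simp only [good] at h
  · obtain ⟨h1, h2, h⟩ := h
    rcases h with ⟨rfl, h⟩ | ⟨rfl, h⟩ | ⟨rfl, h⟩ | ⟨rfl, h⟩ | rfl | rfl <;>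
    simp only [len, mul_def, mul', x, X, y, Y, t, u, abs_eq_max_neg, Bool.not_true,
      Bool.not_false, Bool.false_eq_true, if_true, if_false, add_zero] <;>
    (try split_ifs) <;> omega
  · rcases h with ⟨rfl, h⟩ | ⟨rfl, h⟩ | ⟨rfl, h⟩ | ⟨rfl, h⟩ | ⟨rfl, h⟩ | rfl <;>
    simp only [len, mul_def, mul', x, X, y, Y, t, u, abs_eq_max_neg, Bool.not_true,
      Bool.not_false, Bool.false_eq_true, if_true, if_false, add_zero] <;>
    (try split_ifs) <;> omega
  · rcases h with ⟨rfl, h⟩ | ⟨rfl, h⟩ | ⟨rfl, h⟩ | ⟨rfl, h⟩ <;>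
    simp only [len, mul_def, mul', x, X, y, Y, t, u, abs_eq_max_neg, Bool.not_true,
      Bool.not_false, Bool.false_eq_true, if_true, if_false, add_zero] <;>
    (try split_ifs) <;> omega

theorem exists_good (g : Gr) (hg : g ≠ 1) : ∃ l ∈ gens, good (g * l⁻¹) l := by
  obtain ⟨a, b, c, d, p, q⟩ := g
  cases p <;> cases q
  · by_cases hcd : c = 0 ∧ d = 0
    · obtain ⟨rfl, rfl⟩ := hcd
      rcases lt_trichotomy b 0 with hb | rfl | hb
      · exact ⟨Y, by decide, by simp [good, mul_def, mul', inv_def, inv', x, X, y, Y, t, u]; omega⟩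
      · rcases lt_trichotomy a 0 with ha | rfl | ha
        · exact ⟨X, by decide, by
            simp [good, mul_def, mul', inv_def, inv', x, X, y, Y, t, u]; omega⟩
        · exact absurd rfl hg
        · exact ⟨x, by decide, by
            simp [good, mul_def, mul', inv_def, inv', x, X, y, Y, t, u]; omega⟩
      · exact ⟨y, by decide, by simp [good, mul_def, mul', inv_def, inv', x, X, y, Y, t, u]; omega⟩
    · exact ⟨t, by decide, by
        simp [good, mul_def, mul', inv_def, inv', x, X, y, Y, t, u]; omega⟩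
  · exact ⟨u, by decide, by simp [good, mul_def, mul', inv_def, inv', x, X, y, Y, t, u]⟩
  · rcases lt_trichotomy d 0 with hd | rfl | hd
    · exact ⟨Y, by decide, by simp [good, mul_def, mul', inv_def, inv', x, X, y, Y, t, u]; omega⟩
    · rcases lt_trichotomy c 0 with hc | rfl | hc
      · exact ⟨X, by decide, by
          simp [good, mul_def, mul', inv_def, inv', x, X, y, Y, t, u]; omega⟩
      · exact ⟨t, by decide, by simp [good, mul_def, mul', inv_def, inv', x, X, y, Y, t, u]⟩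
      · exact ⟨x, by decide, by
          simp [good, mul_def, mul', inv_def, inv', x, X, y, Y, t, u]; omega⟩
    · exact ⟨y, by decide, by simp [good, mul_def, mul', inv_def, inv', x, X, y, Y, t, u]; omega⟩
  · rcases lt_trichotomy d 0 with hd | rfl | hd
    · exact ⟨X, by decide, by simp [good, mul_def, mul', inv_def, inv', x, X, y, Y, t, u]; omega⟩
    · rcases lt_trichotomy c 0 with hc | rfl | hc
      · exact ⟨Y, by decide, by
          simp [good, mul_def, mul', inv_def, inv', x, X, y, Y, t, u]; omega⟩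
      · exact ⟨u, by decide, by simp [good, mul_def, mul', inv_def, inv', x, X, y, Y, t, u]⟩
      · exact ⟨y, by decide, by
          simp [good, mul_def, mul', inv_def, inv', x, X, y, Y, t, u]; omega⟩
    · exact ⟨x, by decide, by simp [good, mul_def, mul', inv_def, inv', x, X, y, Y, t, u]; omega⟩

/-- The finite state. -/
noncomputable def st (g : Gr) : SignType × SignType × SignType × SignType × Bool × Bool :=
  (SignType.sign g.a, SignType.sign g.b, SignType.sign g.c, SignType.sign g.d, g.p, g.q)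

theorem sign_eq_iff (a b : ℤ) : SignType.sign a = SignType.sign b ↔
    ((0 < a ↔ 0 < b) ∧ (a < 0 ↔ b < 0)) := by
  rcases lt_trichotomy a 0 with ha | rfl | ha <;> rcases lt_trichotomy b 0 with hb | rfl | hb <;>
    simp [sign_pos, sign_neg, *] <;> omega

theorem st_good (g h l : Gr) (e : st g = st h) (hg : good g l) :
    good h l ∧ st (g * l) = st (h * l) := by
  obtain ⟨a, b, c, d, p, q⟩ := g
  obtain ⟨a', b', c', d', p', q'⟩ := h
  simp only [st, Prod.mk.injEq, sign_eq_iff] at e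
  obtain ⟨e1, e2, e3, e4, rfl, rfl⟩ := e
  cases p <;> cases q <;> simp only [good] at hg
  · obtain ⟨h1, h2, h⟩ := hg
    rcases h with ⟨rfl, h⟩ | ⟨rfl, h⟩ | ⟨rfl, h⟩ | ⟨rfl, h⟩ | rfl | rfl <;>
    simp [good, st, sign_eq_iff, mul_def, mul', x, X, y, Y, t, u] <;> omega
  · rcases hg with ⟨rfl, h⟩ | ⟨rfl, h⟩ | ⟨rfl, h⟩ | ⟨rfl, h⟩ | ⟨rfl, h⟩ | rfl <;>
    simp [good, st, sign_eq_iff, mul_def, mul', x, X, y, Y, t, u] <;> omega
  · rcases hg with ⟨rfl, h⟩ | ⟨rfl, h⟩ | ⟨rfl, h⟩ | ⟨rfl, h⟩ <;>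
    simp [good, st, sign_eq_iff, mul_def, mul', x, X, y, Y, t, u] <;> omega

/-- Move from `0` towards `a` by at most `n` steps. -/
def clamp (a n : ℤ) : ℤ := max (-(max n 0)) (min a (max n 0))

theorem clamp_lip (a a' n n' k : ℤ) (h1 : |a - a'| ≤ k) (h2 : |n - n'| ≤ k) :
    |clamp a n - clamp a' n'| ≤ k := by
  simp only [clamp, abs_le] at *
  omega

/-- Position after `i` letters of the normal form of `g`. -/
def pos (g : Gr) (i : ℤ) : ℤ × ℤ × ℤ × ℤ :=
  (clamp g.a i, clamp g.b (i - |g.a|), clamp g.c (i - |g.a| - |g.b| - 1),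
    clamp g.d (i - |g.a| - |g.b| - 1 - |g.c|))

def vec (g : Gr) : ℤ × ℤ × ℤ × ℤ := (g.a, g.b, g.c, g.d)

theorem pos_of_len_le (g : Gr) (i : ℤ) (h : len g ≤ i) : pos g i = vec g := by
  obtain ⟨a, b, c, d, p, q⟩ := g
  cases p <;> cases q <;>
    simp only [len, pos, vec, clamp, abs_eq_max_neg, Prod.mk.injEq, Bool.false_eq_true,
      if_true, if_false] at h ⊢ <;> (try split_ifs at h) <;> omega

theorem pos_good (g l : Gr) (h : good g l) (i : ℤ) (hi : i ≤ len g) :
    pos (g * l) i = pos g i := by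
  obtain ⟨a, b, c, d, p, q⟩ := g
  cases p <;> cases q <;> simp only [good] at h
  · obtain ⟨h1, h2, h⟩ := h
    subst h1 h2
    rcases h with ⟨rfl, h⟩ | ⟨rfl, h⟩ | ⟨rfl, h⟩ | ⟨rfl, h⟩ | rfl | rfl <;>
    simp only [len, pos, clamp, mul_def, mul', x, X, y, Y, t, u, abs_eq_max_neg, Prod.mk.injEq,
      Bool.false_eq_true, if_true, if_false, add_zero, and_self, and_true, true_and] at hi ⊢ <;> omega
  · rcases h with ⟨rfl, h⟩ | ⟨rfl, h⟩ | ⟨rfl, h⟩ | ⟨rfl, h⟩ | ⟨rfl, h⟩ | rfl <;>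
    simp only [len, pos, clamp, mul_def, mul', x, X, y, Y, t, u, abs_eq_max_neg, Prod.mk.injEq,
      Bool.false_eq_true, if_true, if_false, add_zero, and_self, and_true, true_and] at hi ⊢ <;> omega
  · rcases h with ⟨rfl, h⟩ | ⟨rfl, h⟩ | ⟨rfl, h⟩ | ⟨rfl, h⟩ <;>
    simp only [len, pos, clamp, mul_def, mul', x, X, y, Y, t, u, abs_eq_max_neg, Prod.mk.injEq,
      Bool.false_eq_true, if_true, if_false, add_zero, and_self, and_true, true_and] at hi ⊢ <;> omega

end Gr

end Pool.Agent.Lib.MP_3489e4_al
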