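import Pool.Agent.Lib.MP_3489e4_al.Positive

/-!
For no order of the generators is the ShortLex language an automatic structure.
-/

set_option linter.unusedSimpArgs false

namespace Pool.Agent.Lib.MP_3489e4_al

namespace Gr

def lx : gens := ⟨x, by decide⟩
def lX : gens := ⟨X, by decide⟩
def ly : gens := ⟨y, by decide⟩
def lY : gens := ⟨Y, by decide⟩
def lt' : gens := ⟨t, by decide⟩
def lu : gens := ⟨u, by decide⟩

theorem letter_cases (l : gens) :
    l = lx ∨ l = lX ∨ l = ly ∨ l = lY ∨ l = lt' ∨ l = lu := by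
  obtain ⟨l, hl⟩ := l
  simpa [lx, lX, ly, lY, lt', lu, Subtype.ext_iff] using mem_gens.1 hl

theorem ev_rep_x (n : ℕ) : ev (List.replicate n lx) = ⟨n, 0, 0, 0, false, false⟩ := by
  induction n with
  | zero => rfl
  | succ n ih =>
    rw [List.replicate_succ, ev_cons, ih]
    simp [lx, x, mul_def, mul', add_comm]

theorem ev_rep_y (n : ℕ) : ev (List.replicate n ly) = ⟨0, n, 0, 0, false, false⟩ := by
  induction n with
  | zero => rfl
  | succ n ih =>
    rw [List.replicate_succ, ev_cons, ih]
    simp [ly, y, mul_def, mul', add_comm]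

/-- the sorted word -/
def W (e E : gens) (rr : List gens) (n m : ℕ) : List gens :=
  List.replicate n e ++ (List.replicate m E ++ rr)

theorem W_length (e E : gens) (rr : List gens) (n m : ℕ) :
    (W e E rr n m).length = n + m + rr.length := by
  simp [W, add_assoc]

theorem first_letter (e E : gens) (he : (e = lx ∧ E = ly) ∨ (e = ly ∧ E = lx)) (rr : List gens)
    (hr : rr = [] ∨ rr = [lt'] ∨ rr = [lu]) (n m : ℕ) (l : gens)
    (h : len ((l : Gr)⁻¹ * ev (W e E rr n m)) + 1 ≤ n + m + rr.length) :
    (l = e ∧ 1 ≤ n) ∨ (l = E ∧ 1 ≤ m) ∨ (n = 0 ∧ m = 0 ∧ rr = [l]) := by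
  rcases he with ⟨rfl, rfl⟩ | ⟨rfl, rfl⟩ <;> rcases hr with rfl | rfl | rfl <;>
    rcases letter_cases l with rfl | rfl | rfl | rfl | rfl | rfl <;>
    simp only [W, ev_append, ev_rep_x, ev_rep_y, ev_cons, ev_nil, mul_one] at h <;>
    simp [len, lx, lX, ly, lY, lt', lu, x, X, y, Y, t, u, mul_def, mul', inv_def, inv',
      abs_eq_max_neg, Subtype.ext_iff] at h ⊢ <;> (try split_ifs at h) <;> omega

theorem len_W (e E : gens) (he : (e = lx ∧ E = ly) ∨ (e = ly ∧ E = lx)) (rr : List gens)
    (hr : rr = [] ∨ rr = [lt'] ∨ rr = [lu]) (n m : ℕ) :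
    len (ev (W e E rr n m)) = n + m + rr.length := by
  rcases he with ⟨rfl, rfl⟩ | ⟨rfl, rfl⟩ <;> rcases hr with rfl | rfl | rfl <;>
    simp only [W, ev_append, ev_rep_x, ev_rep_y, ev_cons, ev_nil, mul_one] <;>
    simp [len, lx, lX, ly, lY, lt', lu, x, X, y, Y, t, u, mul_def, mul', inv_def, inv',
      abs_eq_max_neg, Subtype.ext_iff] <;> omega

theorem len_tail (l : gens) (v : List gens) (g : Gr) (h : ev (l :: v) = g) :
    len ((l : Gr)⁻¹ * g) ≤ v.length := by
  have : ev v = (l : Gr)⁻¹ * g := by rw [← h, ev_cons]; group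
  rw [← this]
  exact len_le_length v

theorem W_least (R : gens → gens → Prop) (e E : gens)
    (he : (e = lx ∧ E = ly) ∨ (e = ly ∧ E = lx)) (hlt : R e E) (rr : List gens)
    (hr : rr = [] ∨ rr = [lt'] ∨ rr = [lu]) (v : List gens) :
    ∀ n m : ℕ, ev v = ev (W e E rr n m) → v.length ≤ n + m + rr.length →
      v = W e E rr n m ∨ List.Lex R (W e E rr n m) v := by
  induction v with
  | nil =>
    intro n m h _
    left
    have h1 := len_W e E he rr hr n m
    rw [← h, ev_nil, len_one] at h1
    have h2 := W_length e E rr n m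
    symm
    apply List.eq_nil_of_length_eq_zero
    omega
  | cons l v ih =>
    intro n m h hl
    have h1 := len_tail l v _ h
    simp only [List.length_cons] at hl
    rcases first_letter e E he rr hr n m l (by omega) with ⟨rfl, hn⟩ | ⟨rfl, hm⟩ | ⟨rfl, rfl, rfl⟩
    · obtain ⟨n, rfl⟩ : ∃ k, n = k + 1 := ⟨n - 1, by omega⟩
      have hW : W l E rr (n + 1) m = l :: W l E rr n m := by simp [W, List.replicate_succ]
      rw [hW] at h ⊢
      rw [ev_cons, ev_cons, mul_right_inj] at h
      rcases ih n m h (by omega) with h2 | h2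
      · left; rw [h2]
      · right; exact List.Lex.cons h2
    · rcases Nat.eq_zero_or_pos n with rfl | hn
      · obtain ⟨m, rfl⟩ : ∃ k, m = k + 1 := ⟨m - 1, by omega⟩
        have hW : W e l rr 0 (m + 1) = l :: W e l rr 0 m := by simp [W, List.replicate_succ]
        rw [hW] at h ⊢
        rw [ev_cons, ev_cons, mul_right_inj] at h
        rcases ih 0 m h (by omega) with h2 | h2
        · left; rw [h2]
        · right; exact List.Lex.cons h2
      · obtain ⟨n, rfl⟩ : ∃ k, n = k + 1 := ⟨n - 1, by omega⟩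
        have hW : W e l rr (n + 1) m = e :: W e l rr n m := by simp [W, List.replicate_succ]
        rw [hW]
        right; exact List.Lex.rel hlt
    · left
      have : v = [] := by
        apply List.eq_nil_of_length_eq_zero
        simp only [List.length_singleton] at hl
        omega
      simp [W, this]

theorem first2 (e E : gens) (he : (e = lx ∧ E = ly) ∨ (e = ly ∧ E = lx)) (z : gens)
    (hz : z = lt' ∨ z = lu) (n m : ℕ) (l : gens)
    (h : len ((l : Gr)⁻¹ * ev (z :: W e E [] n m)) ≤ n + m) : l = z := by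
  rcases he with ⟨rfl, rfl⟩ | ⟨rfl, rfl⟩ <;> rcases hz with rfl | rfl <;>
    rcases letter_cases l with rfl | rfl | rfl | rfl | rfl | rfl <;>
    simp only [W, ev_append, ev_rep_x, ev_rep_y, ev_cons, ev_nil, mul_one] at h <;>
    simp [len, lx, lX, ly, lY, lt', lu, x, X, y, Y, t, u, mul_def, mul', inv_def, inv',
      abs_eq_max_neg, Subtype.ext_iff] at h ⊢ <;> (try split_ifs at h) <;> omega

theorem first1 (e E : gens) (he : (e = lx ∧ E = ly) ∨ (e = ly ∧ E = lx)) (z z' : gens)
    (hz : (z = lt' ∧ z' = lu) ∨ (z = lu ∧ z' = lt')) (n m : ℕ) (hn : 1 ≤ n) (l : gens)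
    (h : len ((l : Gr)⁻¹ * ev (z :: W e E [z] n m)) ≤ n + m + 1) : l = z ∨ l = z' := by
  rcases he with ⟨rfl, rfl⟩ | ⟨rfl, rfl⟩ <;> rcases hz with ⟨rfl, rfl⟩ | ⟨rfl, rfl⟩ <;>
    rcases letter_cases l with rfl | rfl | rfl | rfl | rfl | rfl <;>
    simp only [W, ev_append, ev_rep_x, ev_rep_y, ev_cons, ev_nil, mul_one] at h <;>
    simp [len, lx, lX, ly, lY, lt', lu, x, X, y, Y, t, u, mul_def, mul', inv_def, inv',
      abs_eq_max_neg, Subtype.ext_iff] at h ⊢ <;> (try split_ifs at h) <;> omega

theorem len2 (e E : gens) (he : (e = lx ∧ E = ly) ∨ (e = ly ∧ E = lx)) (z : gens)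
    (hz : z = lt' ∨ z = lu) (n m : ℕ) : len (ev (z :: W e E [] n m)) = n + m + 1 := by
  rcases he with ⟨rfl, rfl⟩ | ⟨rfl, rfl⟩ <;> rcases hz with rfl | rfl <;>
    simp only [W, ev_append, ev_rep_x, ev_rep_y, ev_cons, ev_nil, mul_one] <;>
    simp [len, lx, lX, ly, lY, lt', lu, x, X, y, Y, t, u, mul_def, mul', inv_def, inv',
      abs_eq_max_neg, Subtype.ext_iff] <;> omega

theorem len1 (e E : gens) (he : (e = lx ∧ E = ly) ∨ (e = ly ∧ E = lx)) (z : gens)
    (hz : z = lt' ∨ z = lu) (n m : ℕ) (hn : 1 ≤ n) :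
    len (ev (z :: W e E [z] n m)) = n + m + 2 := by
  rcases he with ⟨rfl, rfl⟩ | ⟨rfl, rfl⟩ <;> rcases hz with rfl | rfl <;>
    simp only [W, ev_append, ev_rep_x, ev_rep_y, ev_cons, ev_nil, mul_one] <;>
    simp [len, lx, lX, ly, lY, lt', lu, x, X, y, Y, t, u, mul_def, mul', inv_def, inv',
      abs_eq_max_neg, Subtype.ext_iff] <;> (try split_ifs) <;> omega

theorem ev_rel (e E : gens) (he : (e = lx ∧ E = ly) ∨ (e = ly ∧ E = lx)) (z z' : gens)
    (hz : (z = lt' ∧ z' = lu) ∨ (z = lu ∧ z' = lt')) (n m : ℕ) :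
    ev (z :: W e E [z] n m) * z' = ev (z' :: W e E [] n m) ↔ n = m := by
  rcases he with ⟨rfl, rfl⟩ | ⟨rfl, rfl⟩ <;> rcases hz with ⟨rfl, rfl⟩ | ⟨rfl, rfl⟩ <;>
    simp only [W, ev_append, ev_rep_x, ev_rep_y, ev_cons, ev_nil, mul_one] <;>
    simp [lx, lX, ly, lY, lt', lu, x, X, y, Y, t, u, mul_def, mul'] <;> omega

theorem mem2 (r : LinearOrder gens) (e E : gens) (he : (e = lx ∧ E = ly) ∨ (e = ly ∧ E = lx))
    (hlt : r.lt e E) (z : gens) (hz : z = lt' ∨ z = lu) (n m : ℕ) :
    z :: W e E [] n m ∈ shortLexLang gens r := by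
  intro v hv
  have h1 := len2 e E he z hz n m
  have h2 := len_le_length v
  have h3 := W_length e E [] n m
  rw [hv, h1] at h2
  rcases Nat.lt_or_ge (z :: W e E [] n m).length v.length with h4 | h4
  · exact Or.inr (List.Shortlex.of_length_lt h4)
  simp only [List.length_cons, List.length_nil] at h3 h4
  cases v with
  | nil => simp at h2; omega
  | cons l v =>
    simp only [List.length_cons] at h2 h4
    have h5 := len_tail l v _ hv
    obtain rfl := first2 e E he z hz n m l (by omega)
    rw [ev_cons, ev_cons, mul_right_inj] at hv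
    rcases W_least r.lt e E he hlt [] (Or.inl rfl) v n m hv (by simp; omega) with h6 | h6
    · left; rw [h6]
    · right
      exact List.Shortlex.of_lex (by simp only [List.length_cons]; omega) (List.Lex.cons h6)

theorem mem1 (r : LinearOrder gens) (e E : gens) (he : (e = lx ∧ E = ly) ∨ (e = ly ∧ E = lx))
    (hlt : r.lt e E) (z z' : gens) (hz : (z = lt' ∧ z' = lu) ∨ (z = lu ∧ z' = lt'))
    (hzz : r.lt z z') (n m : ℕ) (hn : 1 ≤ n) :
    z :: W e E [z] n m ∈ shortLexLang gens r := by
  intro v hv
  have hz1 : z = lt' ∨ z = lu := by tauto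
  have h1 := len1 e E he z hz1 n m hn
  have h2 := len_le_length v
  have h3 := W_length e E [z] n m
  rw [hv, h1] at h2
  rcases Nat.lt_or_ge (z :: W e E [z] n m).length v.length with h4 | h4
  · exact Or.inr (List.Shortlex.of_length_lt h4)
  simp only [List.length_cons, List.length_nil] at h3 h4
  cases v with
  | nil => simp at h2; omega
  | cons l v =>
    simp only [List.length_cons] at h2 h4
    have h5 := len_tail l v _ hv
    rcases first1 e E he z z' hz n m hn l (by omega) with rfl | rfl
    · rw [ev_cons, ev_cons, mul_right_inj] at hv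
      rcases W_least r.lt e E he hlt [l] (by rcases hz1 with rfl | rfl <;> simp) v n m hv
        (by simp; omega) with h6 | h6
      · left; rw [h6]
      · right
        exact List.Shortlex.of_lex (by simp only [List.length_cons]; omega) (List.Lex.cons h6)
    · right
      exact List.Shortlex.of_lex (by simp only [List.length_cons]; omega) (List.Lex.rel hzz)

theorem pad_replicate {α : Type} (a : α) (n : ℕ) (v w : List α) :
    pad (List.replicate n a ++ v) (List.replicate n a ++ w) =
      List.replicate n (some a, some a) ++ pad v w := by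
  induction n with
  | zero => simp
  | succ n ih =>
    simp only [pad] at ih ⊢
    simp [List.replicate_succ, ih]

theorem pad_W (e E z z' : gens) (n m : ℕ) :
    pad (z :: W e E [z] n m) (z' :: W e E [] n m) =
      ((some z, some z') :: List.replicate n (some e, some e)) ++
        (List.replicate m (some E, some E) ++ [(some z, none)]) := by
  have h1 := pad_replicate e n (List.replicate m E ++ [z]) (List.replicate m E ++ [])
  have h2 := pad_replicate E m [z] []
  rw [h2] at h1
  simp only [pad, W] at h1 ⊢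
  rw [List.zipWithAll_cons_cons, h1]
  rfl

theorem not_regular (r : LinearOrder gens) (e E : gens)
    (he : (e = lx ∧ E = ly) ∨ (e = ly ∧ E = lx)) (hlt : r.lt e E) (z z' : gens)
    (hz : (z = lt' ∧ z' = lu) ∨ (z = lu ∧ z' = lt')) (hzz : r.lt z z') :
    ¬ (multiplier (shortLexLang gens r) (z' : Gr)).IsRegular := by
  intro h
  have hfin := h.finite_range_leftQuotient
  let F : ℕ → Language (Option gens × Option gens) := fun n =>
    (multiplier (shortLexLang gens r) (z' : Gr)).leftQuotient
      ((some z, some z') :: List.replicate (n + 1) (some e, some e))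
  have key : ∀ n m : ℕ, List.replicate (m + 1) (some E, some E) ++ [(some z, none)] ∈ F n ↔
      n = m := by
    intro n m
    simp only [F, Language.mem_leftQuotient]
    rw [← pad_W, mem_multiplier_iff, lft_pad, rgt_pad, ev_rel e E he z z' hz]
    constructor
    · intro h; omega
    · rintro rfl
      exact ⟨valid_pad _ _, mem1 r e E he hlt z z' hz hzz _ _ (by omega),
        mem2 r e E he hlt z' (by tauto) _ _, rfl⟩
  have hinj : Function.Injective F := by
    intro n m hnm
    have := (key n n).2 rfl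
    rw [hnm] at this
    exact ((key m n).1 this).symm
  refine Set.infinite_of_injective_forall_mem hinj (fun n => ?_) hfin
  exact ⟨(some z, some z') :: List.replicate (n + 1) (some e, some e), rfl⟩

theorem not_shortLex (r : LinearOrder gens) :
    ¬ IsAutomaticStructure gens (shortLexLang gens r) := by
  rintro ⟨-, -, -, h⟩
  have hxy : lx ≠ ly := by decide
  have htu : lt' ≠ lu := by decide
  rcases @lt_or_gt_of_ne _ r _ _ hxy with h1 | h1 <;>
    rcases @lt_or_gt_of_ne _ r _ _ htu with h2 | h2
  · exact not_regular r lx ly (by simp) h1 lt' lu (by simp) h2 (h _)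
  · exact not_regular r lx ly (by simp) h1 lu lt' (by simp) h2 (h _)
  · exact not_regular r ly lx (by simp) h1 lt' lu (by simp) h2 (h _)
  · exact not_regular r ly lx (by simp) h1 lu lt' (by simp) h2 (h _)

end Gr

end Pool.Agent.Lib.MP_3489e4_al
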