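import Pool.Agent.Lib.MP_3489e4_al.Group

/-!
The geodesic normal form is the language of an automatic structure.
-/

set_option linter.unusedSimpArgs false

namespace Pool.Agent.Lib.MP_3489e4_al

namespace Gr

/-- Every letter of the word is good, starting from `g`. -/
def acc : Gr → List gens → Prop
  | _, [] => True
  | g, l :: w => good g l ∧ acc (g * l) w

def NF : Language gens := {w | acc 1 w}

theorem acc_append (g : Gr) (v w : List gens) :
    acc g (v ++ w) ↔ acc g v ∧ acc (g * ev v) w := by
  induction v generalizing g with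
  | nil => simp [acc]
  | cons l v ih => simp [acc, ih, and_assoc, mul_assoc]

theorem acc_st (g h : Gr) (e : st g = st h) (w : List gens) (hw : acc g w) : acc h w := by
  induction w generalizing g h with
  | nil => trivial
  | cons l w ih =>
    obtain ⟨h1, h2⟩ := hw
    obtain ⟨h3, h4⟩ := st_good g h l e h1
    exact ⟨h3, ih _ _ h4 h2⟩

theorem NF_regular : NF.IsRegular := by
  apply regular_of_invariant NF (fun w => (acc 1 w, st (ev w)))
  intro v w e z hz
  simp only [Prod.mk.injEq] at e
  have hz' : acc 1 (v ++ z) := hz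
  show acc 1 (w ++ z)
  rw [acc_append] at hz' ⊢
  rw [one_mul] at hz' ⊢
  exact ⟨e.1 ▸ hz'.1, acc_st _ _ e.2 z hz'.2⟩

theorem len_ev_le (g : Gr) (w : List gens) : len (g * ev w) ≤ len g + w.length := by
  induction w generalizing g with
  | nil => simp
  | cons l w ih =>
    have h1 := ih (g * l)
    have h2 := len_mul_le g l l.2
    simp only [ev_cons, List.length_cons, ← mul_assoc]
    push_cast
    omega

theorem len_le_length (w : List gens) : len (ev w) ≤ w.length := by
  simpa [len_one] using len_ev_le 1 w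

theorem len_acc (g : Gr) (w : List gens) (h : acc g w) : len (g * ev w) = len g + w.length := by
  induction w generalizing g with
  | nil => simp
  | cons l w ih =>
    have h1 := ih (g * l) h.2
    have h2 := len_good g l h.1
    simp only [ev_cons, List.length_cons, ← mul_assoc]
    push_cast
    omega

theorem len_NF (w : List gens) (h : w ∈ NF) : len (ev w) = w.length := by
  simpa [len_one] using len_acc 1 w h

theorem NF_geodesic (w : List gens) (h : w ∈ NF) : IsGeodesic w := by
  intro v hv
  have h1 := len_NF w h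
  have h2 := len_le_length v
  rw [hv] at h2
  omega

theorem NF_surj (g : Gr) : ∃ w ∈ NF, ev w = g := by
  have key : ∀ n : ℕ, ∀ g : Gr, len g ≤ n → ∃ w ∈ NF, ev w = g := by
    intro n
    induction n with
    | zero =>
      intro g hg
      by_cases h1 : g = 1
      · exact ⟨[], trivial, h1.symm⟩
      · obtain ⟨l, -, hl⟩ := exists_good g h1
        have h2 := len_good _ _ hl
        have h3 := len_nonneg (g * l⁻¹)
        rw [inv_mul_cancel_right] at h2
        omega
    | succ n ih =>
      intro g hg
      by_cases h1 : g = 1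
      · exact ⟨[], trivial, h1.symm⟩
      · obtain ⟨l, hl', hl⟩ := exists_good g h1
        have h2 := len_good _ _ hl
        rw [inv_mul_cancel_right] at h2
        obtain ⟨w, hw, e⟩ := ih (g * l⁻¹) (by push_cast at hg; omega)
        refine ⟨w ++ [⟨l, hl'⟩], ?_, ?_⟩
        · show acc 1 _
          rw [acc_append]
          refine ⟨hw, ?_, trivial⟩
          simpa [e] using hl
        · simp [e]
  exact key (len g).toNat g (by omega)

theorem vec_take (w : List gens) (h : w ∈ NF) (n : ℕ) :
    vec (ev (w.take n)) = pos (ev w) n := by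
  induction w using List.reverseRecOn with
  | nil =>
    simp only [List.take_nil, ev_nil]
    exact (pos_of_len_le 1 n (by simp [len_one])).symm
  | append_singleton w l ih =>
    by_cases hn : n ≤ w.length
    · have h' : acc 1 (w ++ [l]) := h
      rw [acc_append, one_mul] at h'
      rw [List.take_append_of_le_length hn, ih h'.1, ev_append]
      simp only [ev_cons, ev_nil, mul_one]
      refine (pos_good _ _ h'.2.1 _ ?_).symm
      rw [len_NF w h'.1]
      exact_mod_cast hn
    · rw [List.take_of_length_le (by simp; omega)]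
      refine (pos_of_len_le _ _ ?_).symm
      rw [len_NF _ h]
      simp only [List.length_append, List.length_singleton]
      omega

/-- close translation parts -/
def Near (k : ℤ) (v w : ℤ × ℤ × ℤ × ℤ) : Prop :=
  |v.1 - w.1| ≤ k ∧ |v.2.1 - w.2.1| ≤ k ∧ |v.2.2.1 - w.2.2.1| ≤ k ∧ |v.2.2.2 - w.2.2.2| ≤ k

theorem near_pos (g h : Gr) (hn : Near 1 (vec g) (vec h)) (i : ℤ) : Near 3 (pos g i) (pos h i) := by
  obtain ⟨h1, h2, h3, h4⟩ := hn
  simp only [vec] at h1 h2 h3 h4
  have k1 := (abs_abs_sub_abs_le_abs_sub g.a h.a).trans h1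
  have k2 := (abs_abs_sub_abs_le_abs_sub g.b h.b).trans h2
  have k3 := (abs_abs_sub_abs_le_abs_sub g.c h.c).trans h3
  rw [abs_le] at k1 k2 k3
  refine ⟨clamp_lip _ _ _ _ _ (by omega) (by simp), clamp_lip _ _ _ _ _ (by omega) ?_,
    clamp_lip _ _ _ _ _ (by omega) ?_, clamp_lip _ _ _ _ _ (by omega) ?_⟩ <;>
  rw [abs_le] <;> constructor <;> omega

theorem near_mul (g l : Gr) (hl : l = 1 ∨ l ∈ gens) : Near 1 (vec g) (vec (g * l)) := by
  obtain ⟨a, b, c, d, p, q⟩ := g
  rcases hl with rfl | hl
  · simp [Near]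
  rcases mem_gens.1 hl with rfl | rfl | rfl | rfl | rfl | rfl <;> cases p <;> cases q <;>
    simp [Near, vec, mul_def, mul', x, X, y, Y, t, u]

def Dset : Set Gr := {g | Near 3 (vec g) 0}

theorem Dset_finite : Dset.Finite := by
  let f : Gr → ℤ × ℤ × ℤ × ℤ × Bool × Bool := fun g => (g.a, g.b, g.c, g.d, g.p, g.q)
  have hf : Function.Injective f := by
    rintro ⟨a, b, c, d, p, q⟩ ⟨a', b', c', d', p', q'⟩ e
    simpa [f] using e
  have hfin : (Set.Icc (-3 : ℤ) 3 ×ˢ Set.Icc (-3 : ℤ) 3 ×ˢ Set.Icc (-3 : ℤ) 3 ×ˢ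
      Set.Icc (-3 : ℤ) 3 ×ˢ (Set.univ : Set (Bool × Bool))).Finite :=
    (Set.finite_Icc _ _).prod ((Set.finite_Icc _ _).prod ((Set.finite_Icc _ _).prod
      ((Set.finite_Icc _ _).prod Set.finite_univ)))
  refine (hfin.preimage hf.injOn).subset ?_
  rintro ⟨a, b, c, d, p, q⟩ h
  simp only [Dset, Near, vec, Set.mem_ofPred_eq, Prod.fst_zero, Prod.snd_zero, sub_zero,
    abs_le] at h
  simp only [f, Set.mem_preimage, Set.mem_prod, Set.mem_Icc, Set.mem_univ, and_true]
  exact h

theorem mem_Dset (g h : Gr) (hn : Near 3 (vec g) (vec h)) : g⁻¹ * h ∈ Dset := by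
  obtain ⟨a, b, c, d, p, q⟩ := g
  obtain ⟨a', b', c', d', p', q'⟩ := h
  cases p <;> cases q <;>
    simp only [Dset, Near, vec, Set.mem_ofPred_eq, Prod.fst_zero, Prod.snd_zero, sub_zero,
      abs_le, mul_def, mul', inv_def, inv'] at hn ⊢ <;> omega

theorem NF_multiplier (l : Gr) (hl : l = 1 ∨ l ∈ gens) : (multiplier NF l).IsRegular := by
  apply multiplier_regular NF NF_regular l Dset Dset_finite
  intro v hv w hw e n
  apply mem_Dset
  rw [vec_take v hv, vec_take w hw]
  apply near_pos
  rw [← e]
  exact near_mul _ _ hl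

theorem NF_automatic : IsAutomaticStructure gens NF :=
  ⟨NF_regular, NF_surj, NF_multiplier 1 (Or.inl rfl), fun a => NF_multiplier a (Or.inr a.2)⟩

theorem gens_closure : Subgroup.closure (gens : Set Gr) = ⊤ := by
  rw [eq_top_iff]
  intro g _
  obtain ⟨w, -, rfl⟩ := NF_surj g
  clear * -
  induction w with
  | nil => exact one_mem _
  | cons l w ih =>
    rw [ev_cons]
    exact mul_mem (Subgroup.subset_closure l.2) ih

end Gr

end Pool.Agent.Lib.MP_3489e4_al
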